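import Mathlib

namespace Pool.Agent.Results.MP_f1805c_gt.NotMinimal
open Set Filter Topology

def Reversible (G : Type) [AddGroup G] [TopologicalSpace G] : Prop :=
  ∀ f : G ≃+ G, Continuous f → IsOpenMap f

def Pseudocompact (G : Type) [TopologicalSpace G] : Prop :=
  ∀ f : G → ℝ, Continuous f → ∃ M, ∀ x, |f x| ≤ M

/-- no strictly coarser Hausdorff group topology -/
def IsMinimal (G : Type) [AddGroup G] [t : TopologicalSpace G] : Prop :=
  ∀ t' : TopologicalSpace G, @IsTopologicalAddGroup G t' _ → @T2Space G t' → ¬ t < t'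

def G : AddSubgroup (ℝ → ZMod 2) where
  carrier := {x | (Function.support x).Countable}
  zero_mem' := by simp
  add_mem' hx hy := (hx.union hy).mono (Function.support_add _ _)
  neg_mem' hx := by simpa using hx

instance : TopologicalSpace (ZMod 2) := ⊥
instance : DiscreteTopology (ZMod 2) := ⟨rfl⟩

lemma cpt (B : Set G) (hB : B.Countable) : ∃ K : Set G, IsCompact K ∧ B ⊆ K := by
  let J := ⋃ b ∈ B, Function.support (b : G).1
  have hJ : J.Countable := hB.biUnion fun b _ => b.2
  refine ⟨{x | ∀ i ∉ J, x.1 i = 0}, ?_, fun b hb i hi => by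
    by_contra h; exact hi (mem_biUnion hb h)⟩
  rw [Subtype.isCompact_iff]
  have : Subtype.val '' {x : G | ∀ i ∉ J, x.1 i = 0} = ⋂ i ∉ J, {x | x i = 0} := by
    ext x
    simp only [mem_image, mem_iInter]
    exact ⟨by rintro ⟨y, h, rfl⟩; exact h,
      fun h => ⟨⟨x, hJ.mono fun i hi => by by_contra h'; exact hi (h i h')⟩, h, rfl⟩⟩
  rw [this]
  exact (isClosed_biInter fun i _ => isClosed_eq (continuous_apply i) continuous_const).isCompact

lemma mem_cl (A : Set G) (y : G) :
    y ∈ closure A ↔ ∀ S : Finset ℝ, ∃ a ∈ A, ∀ i ∈ S, a.1 i = y.1 i := by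
  constructor
  · intro h S
    obtain ⟨a, h1, h2⟩ := mem_closure_iff.1 h (⋂ i ∈ S, {a : G | a.1 i = y.1 i})
      (isOpen_biInter_finset fun i _ => (isOpen_discrete {y.1 i}).preimage
        (f := fun a : G => a.1 i) ((continuous_apply i).comp continuous_subtype_val)) (by simp)
    exact ⟨a, h2, by simpa using h1⟩
  · intro h
    choose a ha hS using h
    refine mem_closure_of_tendsto (b := atTop) (f := a) ?_ (Eventually.of_forall ha)
    rw [tendsto_subtype_rng, tendsto_pi_nhds]
    intro i
    exact tendsto_const_nhds.congr' ((eventually_ge_atTop {i}).mono fun S h =>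
      (hS S i (by simpa using h)).symm)

lemma tight (A : Set G) (y : G) (h : y ∈ closure A) : ∃ B ⊆ A, B.Countable ∧ y ∈ closure B := by
  classical
  choose a ha hS using (mem_cl A y).1 h
  let J : ℕ → Set ℝ := fun n => Nat.rec (Function.support y.1)
    (fun _ J => J ∪ ⋃ S ∈ {S : Finset ℝ | ↑S ⊆ J}, Function.support (a S).1) n
  have hc : ∀ T : Set ℝ, T.Countable → {S : Finset ℝ | ↑S ⊆ T}.Countable := fun T hT =>
    ((countable_ofPred_finite_subset hT).preimage (f := fun S : Finset ℝ => (S : Set ℝ))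
      Finset.coe_injective).mono fun S hS => And.intro S.finite_toSet hS
  have hJ : ∀ n, (J n).Countable := fun n => by
    induction n with
    | zero => exact y.2
    | succ n ih => exact ih.union ((hc _ ih).biUnion fun S _ => (a S).2)
  have hm : Monotone J := monotone_nat_of_le_succ fun n => subset_union_left
  refine ⟨a '' {S | ↑S ⊆ ⋃ n, J n}, by rintro _ ⟨S, -, rfl⟩; exact ha S,
    (hc _ (countable_iUnion hJ)).image a, (mem_cl _ y).2 fun S => ?_⟩
  let S' := S.filter (· ∈ ⋃ n, J n)
  have hS' : (S' : Set ℝ) ⊆ ⋃ n, J n := fun i hi => (Finset.mem_filter.1 hi).2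
  refine ⟨a S', ⟨S', hS', rfl⟩, fun i hi => ?_⟩
  by_cases h1 : i ∈ ⋃ n, J n
  · exact hS S' i (Finset.mem_filter.2 ⟨hi, h1⟩)
  obtain ⟨n, hn⟩ := hm.directed_le.exists_mem_subset_of_finset_subset_biUnion hS'
  have h2 : (a S').1 i = 0 := by
    by_contra h; exact h1 (mem_iUnion.2 ⟨n + 1, Or.inr (mem_biUnion (x := S') hn h)⟩)
  have h3 : y.1 i = 0 := by
    by_contra h; exact h1 (mem_iUnion.2 ⟨0, h⟩)
  rw [h2, h3]

lemma rev : Reversible G := by
  intro f hf U hU
  rw [← isClosed_compl_iff, ← image_compl_eq f.bijective, ← closure_subset_iff_isClosed]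
  intro y hy
  obtain ⟨B, hB, hc, hy⟩ := tight _ y hy
  obtain ⟨K, hK, hs⟩ := cpt (f ⁻¹' B) (hc.preimage f.injective)
  have := ((hK.inter_right hU.isClosed_compl).image hf).isClosed
  refine image_mono inter_subset_right (closure_minimal (fun b hb => ?_) this hy)
  obtain ⟨x, hx, rfl⟩ := hB hb
  exact ⟨x, ⟨hs hb, hx⟩, rfl⟩

instance : CountablyCompactSpace G := ⟨isCountablyCompact_iff_seq_clusterPt.2 fun x _ => by
  obtain ⟨K, hK, hs⟩ := cpt (range x) (countable_range x)
  obtain ⟨a, -, ha⟩ := hK.exists_mapClusterPt (f := atTop) (u := x)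
    (tendsto_principal.2 (Eventually.of_forall fun n => hs ⟨n, rfl⟩))
  exact ⟨a, trivial, ha⟩⟩

def D : G →+ (ℝ × ℝ → ZMod 2) :=
  AddMonoidHom.mk' (fun x p => x.1 p.1 - x.1 p.2) fun x y => by ext p; simp; ring

theorem result : ∃ (G : Type) (_ : AddCommGroup G) (_ : TopologicalSpace G),
    IsTopologicalAddGroup G ∧ T2Space G ∧ CountablyCompactSpace G ∧ Pseudocompact G ∧
    Reversible G ∧ ¬ IsMinimal G := by
  classical
  refine ⟨G, inferInstance, inferInstance, inferInstance, inferInstance, inferInstance,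
    fun f hf => ?_, rev, fun h => h (TopologicalSpace.induced D inferInstance)
      (topologicalAddGroup_induced D) ?_ (lt_of_le_of_ne ?_ fun e => ?_)⟩
  · by_contra hc
    push Not at hc
    choose x hx using fun n : ℕ => hc n
    obtain ⟨K, hK, hs⟩ := cpt (range x) (countable_range x)
    obtain ⟨M, hM⟩ := (hK.image hf.abs).bddAbove
    obtain ⟨n, hn⟩ := exists_nat_gt M
    linarith [hM ⟨x n, hs ⟨n, rfl⟩, rfl⟩, hx n]
  · refine @IsEmbedding.t2Space _ _ (_) _ _ D (Function.Injective.isEmbedding_induced ?_)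
    rw [injective_iff_map_eq_zero]
    intro x hx
    obtain ⟨j, hj⟩ : ∃ j, j ∉ Function.support x.1 := by
      by_contra hc
      push Not at hc
      exact Cardinal.not_countable_real (x.2.mono fun j _ => hc j)
    ext i
    simpa [D, Function.notMem_support.1 hj] using congrFun hx (i, j)
  · exact continuous_iff_le_induced.1 (continuous_pi fun p =>
      ((continuous_apply p.1).comp continuous_subtype_val).sub
        ((continuous_apply p.2).comp continuous_subtype_val))
  · let x : Finset ℝ → G := fun S => ⟨fun i => if i ∈ S then 1 else 0,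
      S.countable_toSet.mono fun i hi => by simpa using hi⟩
    have h1 : Tendsto x atTop (@nhds G (TopologicalSpace.induced D inferInstance) 0) := by
      rw [nhds_induced, tendsto_comap_iff, tendsto_pi_nhds]
      intro p
      refine tendsto_const_nhds.congr' ((eventually_ge_atTop {p.1, p.2}).mono fun S h => ?_)
      have h1 : p.1 ∈ S := h (by simp)
      have h2 : p.2 ∈ S := h (by simp)
      simp [D, x, h1, h2]
    rw [← e, tendsto_subtype_rng, tendsto_pi_nhds] at h1
    have h2 := h1 0
    rw [nhds_discrete, tendsto_pure] at h2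
    obtain ⟨S, h3, h4⟩ := (h2.and (eventually_ge_atTop {0})).exists
    have : (0 : ℝ) ∈ S := h4 (by simp)
    simp [x, this] at h3

end Pool.Agent.Results.MP_f1805c_gt.NotMinimal
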